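import Pool.Agent.L0h99.MN.Stm

/-!
# Project MN (helper99), module CNT (by helper85): counting the adjacent pairs
-/

set_option autoImplicit false

namespace Pool.Agent.L0h85.MN

open Finset Pool.Agent.L0h99.MN

section

variable {V : Type} [Fintype V] [DecidableEq V]

theorem card_inter_sum {F : Finset (Finset V)} (hF : ∀ P ∈ F, ∀ Q ∈ F, P ≠ Q → Disjoint P Q)
    (B : Finset V) : ∑ Q ∈ F, ((B ∩ Q).card : ℤ) ≤ B.card := by
  have h1 : (F.biUnion fun Q => B ∩ Q).card = ∑ Q ∈ F, (B ∩ Q).card :=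
    Finset.card_biUnion fun P hP Q hQ h =>
      Finset.disjoint_of_subset_left Finset.inter_subset_right
        (Finset.disjoint_of_subset_right Finset.inter_subset_right (hF P hP Q hQ h))
  have h2 : (F.biUnion fun Q => B ∩ Q) ⊆ B :=
    Finset.biUnion_subset.2 fun Q _ => Finset.inter_subset_left
  have h3 := Finset.card_le_card h2
  rw [h1] at h3
  exact_mod_cast h3

theorem sum_part {F : Finset (Finset V)} (hF : ∀ P ∈ F, ∀ Q ∈ F, P ≠ Q → Disjoint P Q)
    (A : Finset V) (f : V → ℤ) (hf : ∀ x, 0 ≤ f x) :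
    ∑ P ∈ F, ∑ x ∈ P ∩ A, f x ≤ ∑ x ∈ A, f x := by
  rw [← Finset.sum_biUnion fun P hP Q hQ h =>
      Finset.disjoint_of_subset_left Finset.inter_subset_left
        (Finset.disjoint_of_subset_right Finset.inter_subset_left (hF P hP Q hQ h))]
  exact Finset.sum_le_sum_of_subset_of_nonneg
    (Finset.biUnion_subset.2 fun Q _ => Finset.inter_subset_right) fun x _ _ => hf x

open Classical in
theorem card_N_inter (G : SimpleGraph V) (x : V) (B : Finset V) :
    ((N G x ∩ B).card : ℤ) = ∑ y ∈ B, if G.Adj x y then 1 else 0 := by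
  have h : N G x ∩ B = B.filter fun y => G.Adj x y := by
    ext y
    simp only [Finset.mem_inter, mem_N, Finset.mem_filter]
    tauto
  rw [h, Finset.card_filter]
  push_cast
  rfl

theorem ee_symm (G : SimpleGraph V) (A B : Finset V) : ee G A B = ee G B A := by
  classical
  unfold ee
  simp only [card_N_inter]
  rw [Finset.sum_comm]
  refine Finset.sum_congr rfl fun x _ => Finset.sum_congr rfl fun y _ => ?_
  simp only [G.adj_comm y x]

theorem ee_nonneg (G : SimpleGraph V) (A B : Finset V) : 0 ≤ ee G A B :=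
  Finset.sum_nonneg fun _ _ => Nat.cast_nonneg _

theorem sum_split (F : Finset (Finset V)) (h : Finset V → Finset V → ℤ) :
    ∑ P ∈ F, ∑ Q ∈ F, h P Q = ∑ P ∈ F, h P P + ∑ p ∈ F.offDiag, h p.1 p.2 := by
  classical
  rw [← Finset.sum_product', ← Finset.diag_union_offDiag,
    Finset.sum_union (Finset.disjoint_diag_offDiag F), Finset.sum_diag]

theorem Mu_le (G : SimpleGraph V) (F : Finset (Finset V)) (Z P : Finset V)
    (hN : ∀ x y, G.Adj x y → y ∈ Z ∨ ∃ P ∈ F, y ∈ P) :
    Mu G P ≤ ee G P Z + ∑ Q ∈ F, ee G P Q - 2 * (P.card : ℤ) := by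
  have h1 : ∀ x ∈ P, ((N G x).card : ℤ) ≤ ((N G x ∩ Z).card : ℤ) +
      ∑ Q ∈ F, ((N G x ∩ Q).card : ℤ) := by
    intro x _
    have h2 : N G x ⊆ (N G x ∩ Z) ∪ F.biUnion fun Q => N G x ∩ Q := by
      intro y hy
      rcases hN x y (mem_N.1 hy) with h | ⟨Q, hQ, h⟩
      · exact Finset.mem_union_left _ (Finset.mem_inter.2 ⟨hy, h⟩)
      · exact Finset.mem_union_right _ (Finset.mem_biUnion.2 ⟨Q, hQ, Finset.mem_inter.2 ⟨hy, h⟩⟩)
    have h3 := (Finset.card_le_card h2).trans (Finset.card_union_le _ _)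
    have h4 := h3.trans (Nat.add_le_add_left Finset.card_biUnion_le _)
    exact_mod_cast h4
  have h5 := Finset.sum_le_sum h1
  rw [Finset.sum_add_distrib, Finset.sum_comm] at h5
  unfold Mu mu
  rw [Finset.sum_sub_distrib, Finset.sum_const, nsmul_eq_mul]
  unfold ee
  linarith

end

theorem CNT : St_CNT := by
  intro V _ _ G F A Z hF hZ hN hP hPQ
  classical
  -- the sum of the degrees
  have h1 : ∑ P ∈ F, Mu G P ≤ ∑ P ∈ F, ee G P Z + ∑ P ∈ F, ∑ Q ∈ F, ee G P Q -
      2 * ∑ P ∈ F, (P.card : ℤ) := by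
    have := Finset.sum_le_sum fun P (_ : P ∈ F) => Mu_le G F Z P hN
    rw [Finset.sum_sub_distrib, Finset.sum_add_distrib, ← Finset.mul_sum] at this
    exact this
  -- the edges to `Z`
  have h2 : ∑ P ∈ F, ee G P Z ≤ ∑ z ∈ Z, ((N G z).card : ℤ) := by
    have e : ∑ P ∈ F, ee G P Z = ∑ z ∈ Z, ∑ P ∈ F, ((N G z ∩ P).card : ℤ) := by
      rw [Finset.sum_comm]
      exact Finset.sum_congr rfl fun P _ => ee_symm G P Z
    rw [e]
    exact Finset.sum_le_sum fun z _ => card_inter_sum hF _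
  -- the edges inside the parts
  have h3 : ∑ P ∈ F, ee G P P + 2 * (F.card : ℤ) ≤ 2 * ∑ P ∈ F, (P.card : ℤ) := by
    have := Finset.sum_le_sum hP
    rw [Finset.sum_add_distrib, Finset.sum_const, nsmul_eq_mul, ← Finset.mul_sum] at this
    linarith
  -- the edges between the parts
  have h4 : 2 * ∑ p ∈ F.offDiag, ee G p.1 p.2 ≤ 2 * (adjO G F : ℤ) + ee G A A := by
    have h5 : ∀ p ∈ F.offDiag, 2 * ee G p.1 p.2 ≤
        2 * (if ∃ x ∈ p.1, ∃ y ∈ p.2, G.Adj x y then 1 else 0) + ee G (p.1 ∩ A) (p.2 ∩ A) := by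
      intro p hp
      obtain ⟨hp1, hp2, hne⟩ := Finset.mem_offDiag.1 hp
      rcases hPQ p.1 hp1 p.2 hp2 hne with h | ⟨h, h'⟩
      · rw [h]
        have h6 := ee_nonneg G (p.1 ∩ A) (p.2 ∩ A)
        split_ifs <;> linarith
      · rw [if_pos h]
        linarith
    have h6 := Finset.sum_le_sum h5
    rw [← Finset.mul_sum, Finset.sum_add_distrib, ← Finset.mul_sum] at h6
    have h7 : ((adjO G F : ℕ) : ℤ) =
        ∑ p ∈ F.offDiag, (if ∃ x ∈ p.1, ∃ y ∈ p.2, G.Adj x y then (1 : ℤ) else 0) := by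
      unfold adjO
      rw [Finset.card_filter]
      push_cast
      rfl
    have h8 : ∑ p ∈ F.offDiag, ee G (p.1 ∩ A) (p.2 ∩ A) ≤ ee G A A := by
      have h9 := sum_split F fun P Q => ee G (P ∩ A) (Q ∩ A)
      have h10 : 0 ≤ ∑ P ∈ F, ee G (P ∩ A) (P ∩ A) := Finset.sum_nonneg fun P _ => ee_nonneg G _ _
      have h11 : ∑ P ∈ F, ∑ Q ∈ F, ee G (P ∩ A) (Q ∩ A) ≤ ee G A A := by
        have h12 : ∀ P ∈ F, ∑ Q ∈ F, ee G (P ∩ A) (Q ∩ A) ≤
            ∑ x ∈ P ∩ A, ((N G x ∩ A).card : ℤ) := by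
          intro P _
          unfold ee
          rw [Finset.sum_comm]
          refine Finset.sum_le_sum fun x _ => ?_
          have h13 := card_inter_sum hF (N G x ∩ A)
          refine le_trans (le_of_eq ?_) h13
          refine Finset.sum_congr rfl fun Q _ => ?_
          rw [Finset.inter_assoc, Finset.inter_comm A Q]
        exact (Finset.sum_le_sum h12).trans
          (sum_part hF A (fun x => ((N G x ∩ A).card : ℤ)) fun x => Nat.cast_nonneg _)
      linarith
    rw [h7]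
    linarith
  have h14 := sum_split F fun P Q => ee G P Q
  linarith

end Pool.Agent.L0h85.MN
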